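import Pool.Agent.R841.TCF.Main

set_option autoImplicit false

/-!
MP_3f690c_an, Q1: the positive Toeplitz completion class `PTC`.

1. (matrix-stable form, all unital C*-algebras `A`) `M_n(A) ∈ PTC` for all `n ≥ 1` iff every
   `M_n(A)`, `n ≥ 1`, has the factorization property `WPol`: `x* x = y* y` implies `x = v y` for
   some contraction `v`.
2. For every unital C*-algebra `A`: `M_2(A) ∈ PTC` implies `WPol A`, and `WPol (M_k(A))` for all
   `k ≥ 1` implies `A ∈ PTC`.
3. For compact Hausdorff `X` and `N ≥ 2`: `C(X, M_N) ∈ PTC` iff `X` is an F-space.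
4. `C([0,1], M_2)` is not in `PTC`.

Definitions (`MatPos`, `PTC`, `FSpace`) are in `Pool.Agent.R841.TC.Stm`, `WPol` in
`Pool.Agent.R841.TC.StmG`.
-/

open Pool.Agent.R841.TC

namespace Pool.Agent.Results.MP_3f690c_an.StableAndHomogeneous

universe u

theorem result :
    (∀ (A : Type u) [CStarAlgebra A],
      ((∀ n : ℕ, 0 < n → PTC (Matrix (Fin n) (Fin n) A)) ↔
        (∀ n : ℕ, 0 < n → WPol (Matrix (Fin n) (Fin n) A))) ∧
      (PTC (Matrix (Fin 2) (Fin 2) A) → WPol A) ∧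
      ((∀ k : ℕ, 0 < k → WPol (Matrix (Fin k) (Fin k) A)) → PTC A)) ∧
    (∀ (X : Type u) [TopologicalSpace X] [CompactSpace X] [T2Space X] (N : ℕ), 2 ≤ N →
      (PTC C(X, Matrix (Fin N) (Fin N) ℂ) ↔ FSpace X)) ∧
    ¬ PTC C(unitInterval, Matrix (Fin 2) (Fin 2) ℂ) :=
  ⟨fun A _ => ⟨main_stable A, main_two A⟩, fun X _ _ _ N hN => main_CX X N hN, main_interval⟩

end Pool.Agent.Results.MP_3f690c_an.StableAndHomogeneous
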